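import Mathlib
import Pool.Agent.Helper20.FF.Defs
import Pool.Agent.Helper20.FF.Atoms

/-!
# Sets consisting of two arcs with `|2A| = 2|A|`
-/

set_option autoImplicit false

open scoped Pointwise

namespace Pool.Agent.Helper43.FF

open Pool.Agent.Helper82.Kneser Pool.Agent.Helper20.Span Pool.Agent.Helper20.FF

section arcs

variable {n : ℕ} [NeZero n]

/-- the arc `s, s+1, ..., s+p-1` -/
def ar (s : ZMod n) (p : ℕ) : Finset (ZMod n) :=
  (Finset.range p).image (fun i : ℕ => s + (i : ZMod n))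

omit [NeZero n] in
lemma mem_ar {s x : ZMod n} {p : ℕ} : x ∈ ar s p ↔ ∃ i : ℕ, i < p ∧ x = s + i := by
  unfold ar
  rw [Finset.mem_image]
  constructor
  · rintro ⟨i, hi, rfl⟩
    exact ⟨i, Finset.mem_range.1 hi, rfl⟩
  · rintro ⟨i, hi, rfl⟩
    exact ⟨i, Finset.mem_range.2 hi, rfl⟩

omit [NeZero n] in
lemma cast_inj {i j : ℕ} (hi : i < n) (hj : j < n) (h : (i : ZMod n) = j) : i = j := by
  have := congrArg ZMod.val h
  rwa [ZMod.val_natCast_of_lt hi, ZMod.val_natCast_of_lt hj] at this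

omit [NeZero n] in
lemma card_ar (s : ZMod n) {p : ℕ} (hp : p ≤ n) : (ar s p).card = p := by
  unfold ar
  rw [Finset.card_image_of_injOn, Finset.card_range]
  intro i hi j hj hij
  have hi' := Finset.mem_range.1 (Finset.mem_coe.1 hi)
  have hj' := Finset.mem_range.1 (Finset.mem_coe.1 hj)
  exact cast_inj (by omega) (by omega) (add_left_cancel hij)

omit [NeZero n] in
lemma mem_ar_nat {s p x : ℕ} (hsp : s + p ≤ n) (hx : x < n) :
    ((x : ℕ) : ZMod n) ∈ ar (s : ZMod n) p ↔ s ≤ x ∧ x < s + p := by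
  rw [mem_ar]
  constructor
  · rintro ⟨i, hi, h⟩
    have h2 : x = s + i := cast_inj hx (by omega) (by rw [h]; push_cast; rfl)
    omega
  · rintro ⟨h1, h2⟩
    refine ⟨x - s, by omega, ?_⟩
    rw [Nat.cast_sub h1]
    ring

omit [NeZero n] in
lemma mem_ar_zero {p x : ℕ} (hp : p ≤ n) (hx : x < n) :
    ((x : ℕ) : ZMod n) ∈ ar (0 : ZMod n) p ↔ x < p := by
  have := mem_ar_nat (n := n) (s := 0) (p := p) (x := x) (by omega) hx
  rw [Nat.cast_zero] at this
  rw [this]
  omega

lemma exists_nat (x : ZMod n) : ∃ y : ℕ, y < n ∧ (y : ZMod n) = x :=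
  ⟨x.val, ZMod.val_lt x, ZMod.natCast_zmod_val x⟩

omit [NeZero n] in
/-- sums of arcs -/
lemma ar_add_ar (s t : ZMod n) (p q : ℕ) :
    ar s (p + 1) + ar t (q + 1) = ar (s + t) (p + q + 1) := by
  ext x
  rw [Finset.mem_add, mem_ar]
  constructor
  · rintro ⟨y, hy, z, hz, rfl⟩
    rw [mem_ar] at hy hz
    obtain ⟨i, hi, rfl⟩ := hy
    obtain ⟨j, hj, rfl⟩ := hz
    exact ⟨i + j, by omega, by push_cast; ring⟩
  · rintro ⟨i, hi, rfl⟩
    rcases Nat.lt_or_ge i (p + 1) with h | h
    · exact ⟨s + i, mem_ar.2 ⟨i, h, rfl⟩, t, mem_ar.2 ⟨0, by omega, by simp⟩, by ring⟩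
    · refine ⟨s + p, mem_ar.2 ⟨p, by omega, rfl⟩, t + ((i - p : ℕ) : ZMod n),
        mem_ar.2 ⟨i - p, by omega, rfl⟩, ?_⟩
      rw [Nat.cast_sub (by omega)]
      ring

/-- the union of two disjoint arcs -/
lemma card_two {p q d : ℕ} (h1 : p ≤ d) (h2 : d + q ≤ n) :
    (ar (0 : ZMod n) p ∪ ar (d : ZMod n) q).card = p + q := by
  rw [Finset.card_union_of_disjoint, card_ar _ (by omega), card_ar _ (by omega)]
  rw [Finset.disjoint_left]
  intro x hx hx'
  obtain ⟨y, hy, rfl⟩ := exists_nat x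
  rw [mem_ar_zero (by omega) hy] at hx
  rw [mem_ar_nat h2 hy] at hx'
  omega

/-- shrinking both arcs -/
lemma shrink {a b d p q : ℕ} (had : a < d) (hdb : d + b < n) (hp : p ≤ a) (hq : q ≤ b) :
    (ar (0 : ZMod n) p ∪ ar (d : ZMod n) q) ∩ tr (ar (0 : ZMod n) p ∪ ar (d : ZMod n) q) (-1)
      = ar (0 : ZMod n) (p - 1) ∪ ar (d : ZMod n) (q - 1) := by
  ext x
  obtain ⟨y, hy, rfl⟩ := exists_nat x
  rw [Finset.mem_inter, mem_tr, Finset.mem_union, Finset.mem_union, Finset.mem_union,
    mem_ar_zero (by omega) hy, mem_ar_zero (by omega) hy, mem_ar_nat (by omega) hy,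
    mem_ar_nat (by omega) hy,
    show ((y : ℕ) : ZMod n) - -1 = ((y + 1 : ℕ) : ZMod n) by push_cast; ring]
  rcases Nat.lt_or_ge (y + 1) n with h | h
  · rw [mem_ar_zero (by omega) h, mem_ar_nat (by omega) h]
    omega
  · constructor
    · rintro ⟨h1, -⟩
      omega
    · intro h1
      omega

/-- both arcs shortened by `j` -/
lemma frag_shrink {a b d k : ℕ} (had : a < d) (hdb : d + b < n) (hk : a + b = k)
    (hn : 3 * k ≤ n) (hAA : ((ar (0 : ZMod n) a ∪ ar (d : ZMod n) b) +
      (ar (0 : ZMod n) a ∪ ar (d : ZMod n) b)).card = 2 * k)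
    (hgood : Good 0 (ar (0 : ZMod n) a ∪ ar (d : ZMod n) b)) (j : ℕ)
    (hj : 2 ≤ (a - j) + (b - j)) :
    ((ar (0 : ZMod n) (a - j) ∪ ar (d : ZMod n) (b - j)) +
      (ar (0 : ZMod n) a ∪ ar (d : ZMod n) b)).card = (a - j) + (b - j) + k := by
  have hA : (ar (0 : ZMod n) a ∪ ar (d : ZMod n) b).card = k := by
    rw [card_two (by omega) (by omega), hk]
  induction j with
  | zero =>
    rw [Nat.sub_zero, Nat.sub_zero, hAA]
    omega
  | succ j ih =>
    have h1 := ih (by omega)
    have h2 : (ar (0 : ZMod n) (a - j) ∪ ar (d : ZMod n) (b - j)).card = (a - j) + (b - j) :=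
      card_two (by omega) (by omega)
    have h3 := shrink (n := n) (p := a - j) (q := b - j) had hdb (by omega) (by omega)
    have h4 : (ar (0 : ZMod n) (a - j - 1) ∪ ar (d : ZMod n) (b - j - 1)).card
        = (a - j - 1) + (b - j - 1) := card_two (by omega) (by omega)
    have h5 := frag_inter hgood (X := ar (0 : ZMod n) (a - j) ∪ ar (d : ZMod n) (b - j))
      (Y := tr (ar (0 : ZMod n) (a - j) ∪ ar (d : ZMod n) (b - j)) (-1))
      (by rw [h2, hA]; omega) (by rw [card_tr, h2, hA]; omega)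
      (by rw [h1, h2, hA]; omega) (by rw [card_tr_add, h1, card_tr, h2, hA]; omega)
      (by rw [h3, h4]; omega) (by rw [hA, ZMod.card]; omega)
    rw [h3, h4, hA] at h5
    rw [Nat.sub_add_eq, Nat.sub_add_eq, h5]
    omega

omit [NeZero n] in
/-- number of elements of a third arc outside -/
lemma card_third {L : ℕ} (C : Finset (ZMod n)) (s : ZMod n) (hL : L ≤ n) :
    (C ∪ ar s L).card = C.card + ((Finset.range L).filter (fun c : ℕ => s + (c : ZMod n) ∉ C)).card := by
  classical
  have h1 : C ∪ ar s L = C ∪ ((Finset.range L).filter (fun c : ℕ => s + (c : ZMod n) ∉ C)).image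
      (fun c : ℕ => s + (c : ZMod n)) := by
    ext x
    rw [Finset.mem_union, Finset.mem_union, mem_ar, Finset.mem_image]
    constructor
    · rintro (h | ⟨i, hi, rfl⟩)
      · exact Or.inl h
      · by_cases h : s + (i : ZMod n) ∈ C
        · exact Or.inl h
        · exact Or.inr ⟨i, by rw [Finset.mem_filter, Finset.mem_range]; exact ⟨hi, h⟩, rfl⟩
    · rintro (h | ⟨i, hi, rfl⟩)
      · exact Or.inl h
      · rw [Finset.mem_filter, Finset.mem_range] at hi
        exact Or.inr ⟨i, hi.1, rfl⟩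
  rw [h1, Finset.card_union_of_disjoint, Finset.card_image_of_injOn]
  · intro i hi j hj hij
    have hi' := (Finset.mem_filter.1 (Finset.mem_coe.1 hi)).1
    have hj' := (Finset.mem_filter.1 (Finset.mem_coe.1 hj)).1
    rw [Finset.mem_range] at hi' hj'
    exact cast_inj (by omega) (by omega) (add_left_cancel hij)
  · rw [Finset.disjoint_left]
    intro x hx hx'
    rw [Finset.mem_image] at hx'
    obtain ⟨i, hi, rfl⟩ := hx'
    rw [Finset.mem_filter] at hi
    exact hi.2 hx

omit [NeZero n] in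
/-- the third arc starts before `n` -/
lemma out_lt {d p q L : ℕ} (h : 2 * d < n) (hp : p ≤ d) (hq : q ≤ d) (hdq : d + q ≤ n)
    (hL : L ≤ p + 1) :
    ((Finset.range L).filter (fun c : ℕ => (d : ZMod n) + d + (c : ZMod n) ∉
      ar (0 : ZMod n) p ∪ ar (d : ZMod n) q)).card = min L (n - 2 * d) := by
  classical
  rw [← Finset.card_range (min L (n - 2 * d))]
  congr 1
  ext c
  rw [Finset.mem_filter, Finset.mem_range, Finset.mem_range, lt_min_iff]
  rw [Finset.mem_union]
  constructor
  · rintro ⟨h1, h2⟩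
    refine ⟨h1, ?_⟩
    by_contra h3
    apply h2
    left
    have h4 : (d : ZMod n) + d + (c : ZMod n) = ((2 * d + c - n : ℕ) : ZMod n) := by
      rw [Nat.cast_sub (by omega)]
      push_cast
      rw [ZMod.natCast_self]
      ring
    rw [h4, mem_ar_zero (by omega) (by omega)]
    omega
  · rintro ⟨h1, h2⟩
    refine ⟨h1, ?_⟩
    have h4 : (d : ZMod n) + d + (c : ZMod n) = ((2 * d + c : ℕ) : ZMod n) := by
      push_cast
      ring
    rw [h4, mem_ar_zero (by omega) (by omega), mem_ar_nat (by omega) (by omega)]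
    omega

omit [NeZero n] in
/-- the third arc starts after `n` -/
lemma out_ge {d p q L : ℕ} (h : n ≤ 2 * d) (hd : d < n) (hp : p ≤ d) (hdq : d + q ≤ n)
    (hdL : d + L ≤ n) :
    ((Finset.range L).filter (fun c : ℕ => (d : ZMod n) + d + (c : ZMod n) ∉
      ar (0 : ZMod n) p ∪ ar (d : ZMod n) q)).card = L - (p - (2 * d - n)) := by
  classical
  rw [← Nat.card_Ico]
  congr 1
  ext c
  rw [Finset.mem_filter, Finset.mem_range, Finset.mem_Ico, Finset.mem_union]
  have h4 : (d : ZMod n) + d + (c : ZMod n) = ((2 * d - n + c : ℕ) : ZMod n) := by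
    rw [Nat.cast_add, Nat.cast_sub (by omega)]
    push_cast
    rw [ZMod.natCast_self]
    ring
  rw [h4]
  constructor
  · rintro ⟨h1, h2⟩
    rw [mem_ar_zero (by omega) (by omega), mem_ar_nat (by omega) (by omega)] at h2
    omega
  · rintro ⟨h1, h2⟩
    refine ⟨h2, ?_⟩
    rw [mem_ar_zero (by omega) (by omega), mem_ar_nat (by omega) (by omega)]
    omega

/-- the number of elements of `2 d, ..., 2 d + b - 1` outside the other two arcs -/
lemma out_card {a b d k l : ℕ} (hb : 1 ≤ b) (hl : a = b + l) (hl2 : l ≤ 2) (had : a + 2 ≤ d)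
    (hdb : d + b + 2 ≤ n) (hk : a + b = k)
    (hn : 3 * k ≤ n) (hAA : ((ar (0 : ZMod n) a ∪ ar (d : ZMod n) b) +
      (ar (0 : ZMod n) a ∪ ar (d : ZMod n) b)).card = 2 * k)
    (hgood : Good 0 (ar (0 : ZMod n) a ∪ ar (d : ZMod n) b)) :
    ((Finset.range b).filter (fun c : ℕ => (d : ZMod n) + d + (c : ZMod n) ∉
      ar (0 : ZMod n) (a + l) ∪ ar (d : ZMod n) a)).card = 2 - l := by
  obtain ⟨b', rfl⟩ : ∃ b', b = b' + 1 := ⟨b - 1, by omega⟩
  have h1 := frag_shrink (n := n) (by omega) (by omega) hk hn hAA hgood b' (by omega)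
  rw [show a - b' = l + 1 by omega, show b' + 1 - b' = 0 + 1 by omega] at h1
  have h2 : (ar (0 : ZMod n) (l + 1) ∪ ar (d : ZMod n) (0 + 1)) +
      (ar (0 : ZMod n) a ∪ ar (d : ZMod n) (b' + 1)) =
      (ar (0 : ZMod n) (a + l) ∪ ar (d : ZMod n) a) ∪ ar ((d : ZMod n) + d) (b' + 1) := by
    obtain ⟨a', rfl⟩ : ∃ a', a = a' + 1 := ⟨a - 1, by omega⟩
    rw [Finset.union_add, Finset.add_union, Finset.add_union, ar_add_ar, ar_add_ar, ar_add_ar,
      ar_add_ar, zero_add, zero_add, add_zero,
      show l + a' + 1 = a' + 1 + l by omega, show l + b' + 1 = a' + 1 by omega,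
      show 0 + a' + 1 = a' + 1 by omega, show 0 + b' + 1 = b' + 1 by omega]
    ext x
    simp only [Finset.mem_union]
    tauto
  rw [h2, card_third _ _ (by omega), card_two (by omega) (by omega)] at h1
  omega

omit [NeZero n] in
/-- reversed holes -/
lemma hole_rev {k : ℕ} {A : Finset (ZMod n)} (a δ : ZMod n) (hδ : IsUnit δ)
    (h : ∀ x, x ∈ A ↔ x = a ∨ ∃ i : ℕ, 2 ≤ i ∧ i ≤ k ∧ x = a + i * δ) : Hole k A := by
  refine ⟨a + k * δ, -δ, hδ.neg, fun x => ?_⟩
  rw [h]
  constructor
  · rintro (rfl | ⟨i, hi, hik, rfl⟩)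
    · right; ring
    · left
      refine ⟨k - i, by omega, ?_⟩
      rw [Nat.cast_sub hik]; ring
  · rintro (⟨i, hi, rfl⟩ | rfl)
    · right
      refine ⟨k - i, by omega, by omega, ?_⟩
      rw [Nat.cast_sub (by omega)]; ring
    · left; ring

omit [NeZero n] in
/-- one gap of length one -/
lemma gap_one {k c : ℕ} {A : Finset (ZMod n)} (s : ZMod n) (hc : 1 ≤ c) (hck : c < k) (hk : 4 ≤ k)
    (hn : 2 * k < n) (hA : ∀ x, x ∈ A ↔ ∃ i : ℕ, i ≤ k ∧ i ≠ c ∧ x = s + i)
    (hAA : (A + A).card = 2 * k) : Hole k A := by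
  rcases Nat.lt_or_ge 1 c with h1 | h1
  · rcases Nat.lt_or_ge c (k - 1) with h2 | h2
    · exfalso
      have h3 : ar (s + s) (2 * k + 1) ⊆ A + A := by
        intro x hx
        rw [mem_ar] at hx
        obtain ⟨z, hz, rfl⟩ := hx
        have key : ∃ i j : ℕ, i ≤ k ∧ i ≠ c ∧ j ≤ k ∧ j ≠ c ∧ i + j = z := by
          rcases Nat.lt_or_ge k z with h4 | h4
          · by_cases h5 : z - k = c
            · exact ⟨k - 1, c + 1, by omega, by omega, by omega, by omega, by omega⟩
            · exact ⟨k, z - k, by omega, by omega, by omega, h5, by omega⟩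
          · by_cases h5 : z = c
            · exact ⟨1, c - 1, by omega, by omega, by omega, by omega, by omega⟩
            · exact ⟨0, z, by omega, by omega, by omega, h5, by omega⟩
        obtain ⟨i, j, hi, hic, hj, hjc, hij⟩ := key
        exact Finset.mem_add.2 ⟨s + i, (hA _).2 ⟨i, hi, hic, rfl⟩, s + j,
          (hA _).2 ⟨j, hj, hjc, rfl⟩, by rw [← hij]; push_cast; ring⟩
      have h4 := Finset.card_le_card h3
      rw [card_ar _ (by omega), hAA] at h4
      omega
    · refine ⟨s, 1, isUnit_one, fun x => ?_⟩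
      rw [hA]
      constructor
      · rintro ⟨i, hi, hic, rfl⟩
        rcases Nat.lt_or_ge i k with h3 | h3
        · left; exact ⟨i, by omega, by rw [mul_one]⟩
        · right; rw [mul_one, show i = k by omega]
      · rintro (⟨i, hi, rfl⟩ | rfl)
        · exact ⟨i, by omega, by omega, by rw [mul_one]⟩
        · exact ⟨k, by omega, by omega, by rw [mul_one]⟩
  · apply hole_rev s 1 isUnit_one
    intro x
    rw [hA]
    constructor
    · rintro ⟨i, hi, hic, rfl⟩
      rcases Nat.eq_zero_or_pos i with rfl | h3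
      · left; simp
      · right; exact ⟨i, by omega, hi, by rw [mul_one]⟩
    · rintro (rfl | ⟨i, hi, hik, rfl⟩)
      · exact ⟨0, by omega, by omega, by simp⟩
      · exact ⟨i, hik, by omega, by rw [mul_one]⟩

/-- **two arcs**, normalized -/
theorem core {a b d k : ℕ} (hb : 1 ≤ b) (hba : b ≤ a) (hk : a + b = k) (hk4 : 4 ≤ k) (had : a < d)
    (hdb : d + b < n) (hodd : Odd n) (hn : 3 * k ≤ n)
    (hAA : ((ar (0 : ZMod n) a ∪ ar (d : ZMod n) b) +
      (ar (0 : ZMod n) a ∪ ar (d : ZMod n) b)).card = 2 * k)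
    (hgood : Good 0 (ar (0 : ZMod n) a ∪ ar (d : ZMod n) b)) :
    Hole k (ar (0 : ZMod n) a ∪ ar (d : ZMod n) b) := by
  rcases Nat.lt_or_ge (a + 1) d with h1 | h1
  swap
  · have hd : d = a + 1 := by omega
    subst hd
    refine gap_one (c := a) 0 (by omega) (by omega) hk4 (by omega) ?_ hAA
    intro x
    rw [Finset.mem_union, mem_ar, mem_ar]
    constructor
    · rintro (⟨i, hi, rfl⟩ | ⟨i, hi, rfl⟩)
      · exact ⟨i, by omega, by omega, rfl⟩
      · exact ⟨a + 1 + i, by omega, by omega, by push_cast; ring⟩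
    · rintro ⟨i, hi, hia, rfl⟩
      rcases Nat.lt_or_ge i a with h2 | h2
      · left; exact ⟨i, h2, rfl⟩
      · right; exact ⟨i - (a + 1), by omega, by rw [Nat.cast_sub (by omega)]; push_cast; ring⟩
  rcases Nat.lt_or_ge (d + b + 1) n with h2 | h2
  swap
  · have hd : d + b + 1 = n := by omega
    have hd' : (d : ZMod n) = -(b + 1) := by
      have : ((d + b + 1 : ℕ) : ZMod n) = 0 := by rw [hd, ZMod.natCast_self]
      push_cast at this
      linear_combination this
    refine gap_one (c := b) (d : ZMod n) (by omega) (by omega) hk4 (by omega) ?_ hAA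
    intro x
    rw [Finset.mem_union, mem_ar, mem_ar]
    constructor
    · rintro (⟨i, hi, rfl⟩ | ⟨i, hi, rfl⟩)
      · exact ⟨b + 1 + i, by omega, by omega, by rw [hd']; push_cast; ring⟩
      · exact ⟨i, by omega, by omega, rfl⟩
    · rintro ⟨i, hi, hib, rfl⟩
      rcases Nat.lt_or_ge i b with h3 | h3
      · right; exact ⟨i, h3, rfl⟩
      · left
        exact ⟨i - (b + 1), by omega, by rw [hd', Nat.cast_sub (by omega)]; push_cast; ring⟩
  obtain ⟨l, rfl⟩ : ∃ l, a = b + l := ⟨a - b, by omega⟩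
  rcases Nat.lt_or_ge 2 l with h3 | h3
  · exfalso
    have h4 := frag_shrink (n := n) had hdb hk hn hAA hgood (b + l - 3) (by omega)
    rw [show b + l - (b + l - 3) = 2 + 1 by omega, show b - (b + l - 3) = 0 by omega] at h4
    have h5 : ar (d : ZMod n) 0 = ∅ := by unfold ar; simp
    rw [h5, Finset.union_empty] at h4
    obtain ⟨b', rfl⟩ : ∃ b', b = b' + 1 := ⟨b - 1, by omega⟩
    have h6 : ar (0 : ZMod n) (2 + 1) + (ar (0 : ZMod n) (b' + 1 + l) ∪ ar (d : ZMod n) (b' + 1))
        = ar (0 : ZMod n) (b' + 1 + l + 2) ∪ ar (d : ZMod n) (b' + 1 + 2) := by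
      rw [show b' + 1 + l = b' + l + 1 by omega, Finset.add_union, ar_add_ar, ar_add_ar, zero_add,
        zero_add, show 2 + (b' + l) + 1 = b' + l + 1 + 2 by omega,
        show 2 + b' + 1 = b' + 1 + 2 by omega]
    rw [h6, card_two (by omega) (by omega)] at h4
    omega
  have h4 := out_card (n := n) hb rfl h3 (by omega) (by omega) hk hn hAA hgood
  obtain ⟨m, hm⟩ := hodd
  obtain ⟨δ, hδ⟩ : ∃ δ : ZMod n, 2 * δ = 1 := by
    refine ⟨((m + 1 : ℕ) : ZMod n), ?_⟩
    have : ((2 * m + 1 : ℕ) : ZMod n) = 0 := by rw [← hm, ZMod.natCast_self]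
    push_cast at this ⊢
    linear_combination this
  have hδu : IsUnit δ := IsUnit.of_mul_eq_one 2 (by rw [mul_comm]; exact hδ)
  have h5 : (2 * d = n + 1 ∧ l = 2) ∨ (2 * d = n + 3 ∧ (l = 1 ∨ l = 2)) ∨ (2 * d + 1 = n ∧ l = 1) ∨
      (l = 0 ∧ b = 2) := by
    rcases Nat.lt_or_ge (2 * d) n with h6 | h6
    · rw [out_lt h6 (by omega) (by omega) (by omega) (by omega)] at h4
      omega
    · rw [out_ge h6 (by omega) (by omega) (by omega) (by omega)] at h4
      omega
  have hn0 : ((n : ℕ) : ZMod n) = 0 := ZMod.natCast_self n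
  rcases h5 with ⟨h5, rfl⟩ | ⟨h5, h6⟩ | ⟨h5, rfl⟩ | ⟨rfl, rfl⟩
  · -- `d = δ`
    have hd : (d : ZMod n) = δ := by
      have h7 : ((2 * d : ℕ) : ZMod n) = ((n + 1 : ℕ) : ZMod n) := by rw [h5]
      push_cast at h7
      linear_combination δ * h7 - (d : ZMod n) * hδ + δ * hn0
    refine ⟨0, δ, hδu, fun x => ?_⟩
    rw [Finset.mem_union, mem_ar, mem_ar]
    constructor
    · rintro (⟨i, hi, rfl⟩ | ⟨i, hi, rfl⟩)
      · rcases Nat.lt_or_ge i (b + 1) with h7 | h7
        · left
          exact ⟨2 * i, by omega, by push_cast; linear_combination (-(i : ZMod n)) * hδ⟩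
        · right
          have : k = 2 * i := by omega
          rw [this]
          push_cast; linear_combination (-(i : ZMod n)) * hδ
      · left
        exact ⟨2 * i + 1, by omega, by rw [hd]; push_cast; linear_combination (-(i : ZMod n)) * hδ⟩
    · rintro (⟨i, hi, rfl⟩ | rfl)
      · rcases Nat.even_or_odd' i with ⟨j, rfl | rfl⟩
        · left
          exact ⟨j, by omega, by push_cast; linear_combination (j : ZMod n) * hδ⟩
        · right
          exact ⟨j, by omega, by rw [hd]; push_cast; linear_combination (j : ZMod n) * hδ⟩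
      · left
        refine ⟨b + 1, by omega, ?_⟩
        have : k = 2 * (b + 1) := by omega
        rw [this]
        push_cast; linear_combination ((b : ZMod n) + 1) * hδ
  · -- `d = 3 δ`
    have hd : (d : ZMod n) = 3 * δ := by
      have h7 : ((2 * d : ℕ) : ZMod n) = ((n + 3 : ℕ) : ZMod n) := by rw [h5]
      push_cast at h7
      linear_combination δ * h7 - (d : ZMod n) * hδ + δ * hn0
    apply hole_rev 0 δ hδu
    intro x
    rw [Finset.mem_union, mem_ar, mem_ar]
    constructor
    · rintro (⟨i, hi, rfl⟩ | ⟨i, hi, rfl⟩)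
      · rcases Nat.eq_zero_or_pos i with rfl | h7
        · left; simp
        · right
          exact ⟨2 * i, by omega, by omega, by push_cast; linear_combination (-(i : ZMod n)) * hδ⟩
      · right
        exact ⟨2 * i + 3, by omega, by omega,
          by rw [hd]; push_cast; linear_combination (-(i : ZMod n)) * hδ⟩
    · rintro (rfl | ⟨i, hi, hik, rfl⟩)
      · left; exact ⟨0, by omega, by simp⟩
      · rcases Nat.even_or_odd' i with ⟨j, rfl | rfl⟩
        · left
          exact ⟨j, by omega, by push_cast; linear_combination (j : ZMod n) * hδ⟩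
        · right
          obtain ⟨j', rfl⟩ : ∃ j', j = j' + 1 := ⟨j - 1, by omega⟩
          exact ⟨j', by omega, by rw [hd]; push_cast; linear_combination (j' : ZMod n) * hδ⟩
  · -- `d = -δ`
    have hd : (d : ZMod n) = -δ := by
      have h7 : ((2 * d + 1 : ℕ) : ZMod n) = ((n : ℕ) : ZMod n) := by rw [h5]
      push_cast at h7
      linear_combination δ * h7 - (d : ZMod n) * hδ + δ * hn0
    refine ⟨-δ, δ, hδu, fun x => ?_⟩
    rw [Finset.mem_union, mem_ar, mem_ar]
    constructor
    · rintro (⟨i, hi, rfl⟩ | ⟨i, hi, rfl⟩)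
      · rcases Nat.lt_or_ge i b with h7 | h7
        · left
          exact ⟨2 * i + 1, by omega, by push_cast; linear_combination (-(i : ZMod n)) * hδ⟩
        · right
          have : k = 2 * i + 1 := by omega
          rw [this]
          push_cast; linear_combination (-(i : ZMod n)) * hδ
      · left
        exact ⟨2 * i, by omega, by rw [hd]; push_cast; linear_combination (-(i : ZMod n)) * hδ⟩
    · rintro (⟨i, hi, rfl⟩ | rfl)
      · rcases Nat.even_or_odd' i with ⟨j, rfl | rfl⟩
        · right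
          exact ⟨j, by omega, by rw [hd]; push_cast; linear_combination (j : ZMod n) * hδ⟩
        · left
          exact ⟨j, by omega, by push_cast; linear_combination (j : ZMod n) * hδ⟩
      · left
        refine ⟨b, by omega, ?_⟩
        have : k = 2 * b + 1 := by omega
        rw [this]
        push_cast; linear_combination (b : ZMod n) * hδ
  · -- two arcs of length two
    exfalso
    have h6 : (ar (0 : ZMod n) (2 + 0) ∪ ar (d : ZMod n) 2) +
        (ar (0 : ZMod n) (2 + 0) ∪ ar (d : ZMod n) 2)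
        = (ar (0 : ZMod n) 3 ∪ ar (d : ZMod n) 3) ∪ ar ((d : ZMod n) + d) 3 := by
      rw [show 2 + 0 = 1 + 1 by omega, show (2 : ℕ) = 1 + 1 by omega, Finset.union_add,
        Finset.add_union, Finset.add_union, ar_add_ar, ar_add_ar, ar_add_ar, ar_add_ar, zero_add,
        zero_add, add_zero]
      ext x
      simp only [Finset.mem_union]
      tauto
    rw [h6, card_third _ _ (by omega), card_two (by omega) (by omega)] at hAA
    rcases Nat.lt_or_ge (2 * d) n with h7 | h7
    · rw [out_lt h7 (by omega) (by omega) (by omega) (by omega)] at hAA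
      omega
    · rw [out_ge h7 (by omega) (by omega) (by omega) (by omega)] at hAA
      omega

end arcs

end Pool.Agent.Helper43.FF
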