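import Mathlib
import Pool.Agent.Helper20.FF.Defs

/-!
# Runs of a subset of a cyclic group
-/

set_option autoImplicit false

open scoped Pointwise

namespace Pool.Agent.Helper43.FF

open Pool.Agent.Helper82.Kneser Pool.Agent.Helper20.Span Pool.Agent.Helper20.FF

/-- (ARC) runs of a set -/
theorem arcs (n ρ : ℕ) [NeZero n] {A : Finset (ZMod n)} (hne : A ≠ Finset.univ)
    (h : (A ∪ tr A 1).card = A.card + ρ) :
    ∃ (s : Fin ρ → ZMod n) (a : Fin ρ → ℕ), Function.Injective s ∧ (∀ i, 1 ≤ a i) ∧
      ∑ i, a i = A.card ∧ (∀ x, x ∈ A ↔ ∃ i, ∃ c : ℕ, c < a i ∧ x = s i + c) ∧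
      (∀ i, s i - 1 ∉ A) ∧ (∀ i, s i + a i ∉ A) ∧
      (∀ i j c d, c < a i → d < a j → s i + (c : ZMod n) = s j + d → i = j ∧ c = d) := by
  classical
  set S := A \ tr A 1 with hS
  have hSc : S.card = ρ := by
    have h1 := Finset.card_union_add_card_inter A (tr A 1)
    have h2 := Finset.card_sdiff_add_card_inter A (tr A 1)
    rw [card_tr] at h1
    rw [hS]
    omega
  have hSm : ∀ x, x ∈ S ↔ x ∈ A ∧ x - 1 ∉ A := by
    intro x
    rw [hS, Finset.mem_sdiff, mem_tr]
  let e : Fin ρ ≃ S := (finCongr hSc.symm).trans S.equivFin.symm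
  have hex : ∀ x : ZMod n, ∃ c : ℕ, x + (c : ZMod n) ∉ A := by
    intro x
    have : ∃ y, y ∉ A := by
      by_contra hcon
      push Not at hcon
      exact hne (Finset.eq_univ_iff_forall.2 hcon)
    obtain ⟨y, hy⟩ := this
    refine ⟨(y - x).val, ?_⟩
    rw [ZMod.natCast_zmod_val, add_sub_cancel]
    exact hy
  let len : ZMod n → ℕ := fun x => Nat.find (hex x)
  have hlen : ∀ x, x + (len x : ZMod n) ∉ A := fun x => Nat.find_spec (hex x)
  have hlt : ∀ x c, c < len x → x + (c : ZMod n) ∈ A := by
    intro x c hc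
    have := Nat.find_min (hex x) hc
    exact not_not.1 this
  have huniq : ∀ i j c d, c < len (e i) → d < len (e j) →
      ((e i : S) : ZMod n) + (c : ZMod n) = ((e j : S) : ZMod n) + d → i = j ∧ c = d := by
    have key : ∀ i j c d, c ≤ d → d < len (e j) →
        ((e i : S) : ZMod n) + (c : ZMod n) = ((e j : S) : ZMod n) + d → i = j ∧ c = d := by
      intro i j c d hcd hd hij
      have h1 : ((e i : S) : ZMod n) = ((e j : S) : ZMod n) + ((d - c : ℕ) : ZMod n) := by
        rw [Nat.cast_sub hcd]
        linear_combination hij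
      rcases Nat.eq_zero_or_pos (d - c) with h2 | h2
      · rw [h2, Nat.cast_zero, add_zero] at h1
        exact ⟨e.injective (Subtype.ext h1), by omega⟩
      · exfalso
        have h3 := ((hSm _).1 (e i).2).2
        apply h3
        have h4 := hlt (e j) (d - c - 1) (by omega)
        rw [Nat.cast_sub h2, Nat.cast_one] at h4
        rw [h1]
        convert h4 using 1
        ring
    intro i j c d hc hd hij
    rcases le_total c d with hcd | hcd
    · exact key i j c d hcd hd hij
    · have := key j i d c hcd hc hij.symm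
      exact ⟨this.1.symm, this.2.symm⟩
  have hmem : ∀ x, x ∈ A ↔ ∃ i, ∃ c : ℕ, c < len (e i) ∧ x = ((e i : S) : ZMod n) + c := by
    intro x
    constructor
    · intro hx
      have hex' : ∃ c : ℕ, x - (c : ZMod n) - 1 ∉ A := by
        obtain ⟨y, hy⟩ : ∃ y, y ∉ A := by
          by_contra hcon
          push Not at hcon
          exact hne (Finset.eq_univ_iff_forall.2 hcon)
        refine ⟨(x - 1 - y).val, ?_⟩
        rw [ZMod.natCast_zmod_val]
        convert hy using 1
        ring_nf
      set c := Nat.find hex' with hc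
      have h1 : x - (c : ZMod n) - 1 ∉ A := Nat.find_spec hex'
      have h2 : ∀ j, j ≤ c → x - (j : ZMod n) ∈ A := by
        intro j hj
        rcases Nat.eq_zero_or_pos j with rfl | hj0
        · simpa using hx
        · have h3 := not_not.1 (Nat.find_min hex' (show j - 1 < Nat.find hex' by omega))
          rw [Nat.cast_sub hj0, Nat.cast_one] at h3
          convert h3 using 1
          ring
      have h3 : x - (c : ZMod n) ∈ S := (hSm _).2 ⟨h2 c le_rfl, h1⟩
      refine ⟨e.symm ⟨_, h3⟩, c, ?_, ?_⟩
      · rw [Equiv.apply_symm_apply]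
        by_contra hcon
        push Not at hcon
        have h4 := hlen (x - (c : ZMod n))
        apply h4
        have h5 := h2 (c - len (x - (c : ZMod n))) (by omega)
        rw [Nat.cast_sub hcon] at h5
        convert h5 using 1
        ring
      · rw [Equiv.apply_symm_apply]
        ring
    · rintro ⟨i, c, hc, rfl⟩
      exact hlt _ c hc
  refine ⟨fun i => e i, fun i => len (e i), fun i j hij => e.injective (Subtype.ext hij), ?_, ?_,
    hmem, fun i => ((hSm _).1 (e i).2).2, fun i => hlen _, huniq⟩
  · intro i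
    by_contra hcon
    have h1 : len (e i) = 0 := by
      have : ¬ 1 ≤ len (e i) := hcon
      omega
    have h2 := hlen (e i)
    rw [h1, Nat.cast_zero, add_zero] at h2
    exact h2 ((hSm _).1 (e i).2).1
  · have h1 : (Finset.univ.sigma (fun i : Fin ρ => Finset.range (len (e i)))).card
        = ∑ i, len (e i) := by
      rw [Finset.card_sigma]
      simp only [Finset.card_range]
    rw [← h1]
    apply Finset.card_bij (fun p _ => ((e p.1 : S) : ZMod n) + (p.2 : ZMod n))
    · rintro ⟨i, c⟩ hp
      rw [Finset.mem_sigma, Finset.mem_range] at hp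
      exact (hmem _).2 ⟨i, c, hp.2, rfl⟩
    · rintro ⟨i, c⟩ hp ⟨j, d⟩ hq hpq
      rw [Finset.mem_sigma, Finset.mem_range] at hp hq
      obtain ⟨h2, h3⟩ := huniq i j c d hp.2 hq.2 hpq
      subst h2
      subst h3
      rfl
    · intro x hx
      obtain ⟨i, c, hc, rfl⟩ := (hmem x).1 hx
      exact ⟨⟨i, c⟩, by rw [Finset.mem_sigma, Finset.mem_range]; exact ⟨Finset.mem_univ _, hc⟩, rfl⟩

end Pool.Agent.Helper43.FF
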