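import Mathlib
import Pool.Agent.Helper43.FF.Arcs
import Pool.Agent.Helper43.FF.Runs
import Pool.Agent.Helper20.FF.Scale

/-!
# Two arcs, `|2A| = 2|A|`
-/

set_option autoImplicit false

open scoped Pointwise

namespace Pool.Agent.Helper43.FF

open Pool.Agent.Helper82.Kneser Pool.Agent.Helper20.Span Pool.Agent.Helper20.FF

/-- two arcs with arbitrary starts -/
lemma two_starts {n k : ℕ} [NeZero n] (hodd : Odd n) (hk : 4 ≤ k) (hn : 3 * k ≤ n)
    {A : Finset (ZMod n)} (hAA : (A + A).card = 2 * k) (hgood : Good 0 A)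
    (s t : ZMod n) (a b : ℕ) (hb : 1 ≤ b) (hba : b ≤ a) (hab : a + b = k)
    (hmem : ∀ x, x ∈ A ↔ (∃ c : ℕ, c < a ∧ x = s + c) ∨ (∃ c : ℕ, c < b ∧ x = t + c))
    (hen1 : s + a ∉ A) (hen2 : t + b ∉ A)
    (huniq : ∀ c d : ℕ, c < a → d < b → s + (c : ZMod n) ≠ t + d) : Hole k A := by
  obtain ⟨d, hd, hds⟩ := exists_nat (t - s)
  have hdn : ((n - d : ℕ) : ZMod n) = s - t := by
    rw [Nat.cast_sub hd.le, ZMod.natCast_self, hds]
    ring
  have hsA : s ∈ A := (hmem s).2 (Or.inl ⟨0, by omega, by simp⟩)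
  have htA : t ∈ A := (hmem t).2 (Or.inr ⟨0, by omega, by simp⟩)
  have h1 : a < d := by
    by_contra h
    rcases Nat.lt_or_ge d a with h2 | h2
    · exact huniq d 0 h2 (by omega) (by rw [hds, Nat.cast_zero]; ring)
    · have h3 : a = d := by omega
      apply hen1
      rw [h3, hds, add_sub_cancel]
      exact htA
  have h2 : d + b < n := by
    by_contra h
    rcases Nat.lt_or_ge (n - d) b with h3 | h3
    · exact huniq 0 (n - d) (by omega) h3 (by rw [hdn, Nat.cast_zero]; ring)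
    · have h4 : b = n - d := by omega
      apply hen2
      rw [h4, hdn, add_sub_cancel]
      exact hsA
  have h3 : tr A (-s) = ar (0 : ZMod n) a ∪ ar (d : ZMod n) b := by
    ext x
    rw [mem_tr, hmem, Finset.mem_union, mem_ar, mem_ar]
    constructor
    · rintro (⟨c, hc, h⟩ | ⟨c, hc, h⟩)
      · exact Or.inl ⟨c, hc, by linear_combination h⟩
      · exact Or.inr ⟨c, hc, by rw [hds]; linear_combination h⟩
    · rintro (⟨c, hc, h⟩ | ⟨c, hc, h⟩)
      · exact Or.inl ⟨c, hc, by linear_combination h⟩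
      · exact Or.inr ⟨c, hc, by rw [hds] at h; linear_combination h⟩
  apply hole_tr (t := -s)
  rw [h3]
  apply core hb hba hab hk h1 h2 hodd hn
  · rw [← h3, tr_add_tr, card_tr, hAA]
  · rw [← h3]
    exact good_tr hgood _

/-- (P4) two arcs, `|2A| = 2|A|` -/
theorem arcs_hole (n k : ℕ) [NeZero n] (hodd : Odd n) (hk : 4 ≤ k) (hn : 3 * k ≤ n)
    {A : Finset (ZMod n)} (hA : A.card = k) (hAA : (A + A).card = 2 * k) (hgood : Good 0 A)
    {r : ZMod n} (hr : IsUnit r) (h2 : (A ∪ tr A r).card = k + 2) : Hole k A := by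
  obtain ⟨u, hu⟩ := hr.exists_left_inv
  apply hole_sc hu
  have hB : (sc u A).card = k := by rw [card_sc hu, hA]
  have hBB : (sc u A + sc u A).card = 2 * k := by rw [← sc_add, card_sc hu, hAA]
  have hBg : Good 0 (sc u A) := good_sc hu hgood
  have hB2 : (sc u A ∪ tr (sc u A) 1).card = (sc u A).card + 2 := by
    rw [hB, ← h2, ← pair_sc hu A r, hu]
  have hne : sc u A ≠ Finset.univ := by
    intro h
    rw [← Finset.card_eq_iff_eq_univ, ZMod.card, hB] at h
    omega
  obtain ⟨s, a, hinj, ha1, hsum, hmem, hst, hen, huniq⟩ := arcs n 2 hne hB2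
  rw [Fin.sum_univ_two, hB] at hsum
  have hmem' : ∀ x, x ∈ sc u A ↔ (∃ c : ℕ, c < a 0 ∧ x = s 0 + c) ∨
      (∃ c : ℕ, c < a 1 ∧ x = s 1 + c) := by
    intro x
    rw [hmem, Fin.exists_fin_two]
  rcases le_total (a 1) (a 0) with h | h
  · refine two_starts hodd hk hn hBB hBg (s 0) (s 1) (a 0) (a 1) (ha1 1) h hsum hmem' (hen 0)
      (hen 1) ?_
    intro c d hc hd hcd
    have := (huniq 0 1 c d hc hd hcd).1
    exact absurd this (by decide)
  · refine two_starts hodd hk hn hBB hBg (s 1) (s 0) (a 1) (a 0) (ha1 0) h (by omega)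
      (fun x => by rw [hmem', or_comm]) (hen 1) (hen 0) ?_
    intro c d hc hd hcd
    have := (huniq 1 0 c d hc hd hcd).1
    exact absurd this (by decide)

end Pool.Agent.Helper43.FF
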