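import Mathlib
import Pool.Agent.Helper92.FF.P8Defs

/-!
# Three arcs: the cases `(T1, T2')`
-/

set_option autoImplicit false

namespace Pool.Agent.Helper43.FF

open Pool.Agent.Helper92.FF

variable {n k : ℤ} {s a : Fin 3 → ℤ}

/-- the third start -/
lemma third_start (C : Cfg n k s a) {l : Fin 3} (S2 : n ∣ 3 * s l - 1) : n ∣ s l - (-k) := by
  apply C.cancel3
  have h := dvd_add S2 (dvd_refl n)
  have e : 3 * s l - 1 + n = 3 * (s l - -k) := by rw [C.hn]; ring
  rwa [e] at h

lemma case_12_ilj (C : Cfg n k s a) {i j l : Fin 3} (hij : i ≠ j) (hil : i ≠ l) (hjl : j ≠ l)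
    (S1 : n ∣ 2 * s i + s j - 1) (S2 : n ∣ 3 * s l - 1)
    (E1 : n ∣ 2 * (s i + a i) + (s l + a l) - 2) (E2 : n ∣ 2 * (s l + a l) + (s j + a j) - 2) :
    False := by
  have hsum := C.sum' hij hil hjl
  have pi := C.pos i
  have pj := C.pos j
  have pl := C.pos l
  have hn := C.hn
  have hk := C.hk
  have h := dvd_sub (dvd_add E1 E2) (dvd_add S1 S2)
  have e : 2 * (s i + a i) + (s l + a l) - 2 + (2 * (s l + a l) + (s j + a j) - 2) -
      (2 * s i + s j - 1 + (3 * s l - 1)) = 2 * a i + a j + 3 * a l - 2 := by ring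
  rw [e] at h
  obtain ⟨t, h1, h2, h3⟩ := dvd_bdd (by omega) h 0 0 (by omega) (by omega)
  have : t = 0 := by omega
  subst this
  omega

lemma case_12_jil (C : Cfg n k s a) {i j l : Fin 3} (hij : i ≠ j) (hil : i ≠ l) (hjl : j ≠ l)
    (S1 : n ∣ 2 * s i + s j - 1) (S2 : n ∣ 3 * s l - 1)
    (E1 : n ∣ 2 * (s j + a j) + (s i + a i) - 2) (E2 : n ∣ 2 * (s i + a i) + (s l + a l) - 2) :
    Concl n s a := by
  have hsum := C.sum' hij hil hjl
  have pi := C.pos i
  have pj := C.pos j
  have pl := C.pos l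
  have hn := C.hn
  have hk := C.hk
  have hz := third_start C S2
  have F0 : n ∣ 3 * s i - a i - 2 * a j := by
    have h := dvd_sub (dvd_mul_of_dvd_right S1 2) E1
    have e : 2 * (2 * s i + s j - 1) - (2 * (s j + a j) + (s i + a i) - 2) =
        3 * s i - a i - 2 * a j := by ring
    rwa [e] at h
  have hx : n ∣ s i - (2 * a i + a j - 2) := by
    have h := dvd_sub F0 (dvd_sub E2 hz)
    have e : 3 * s i - a i - 2 * a j - (2 * (s i + a i) + (s l + a l) - 2 - (s l - -k)) =
        s i - (2 * a i + a j - 2) := by rw [← hsum]; ring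
    rwa [e] at h
  have hy : n ∣ s j - (5 - 4 * a i - 2 * a j) := by
    have h := dvd_sub S1 (dvd_mul_of_dvd_right hx 2)
    have e : 2 * s i + s j - 1 - 2 * (s i - (2 * a i + a j - 2)) =
        s j - (5 - 4 * a i - 2 * a j) := by ring
    rwa [e] at h
  have F1 : n ∣ 5 * a i + a j - 6 := by
    have h := dvd_sub F0 (dvd_mul_of_dvd_right hx 3)
    have e : 3 * s i - a i - 2 * a j - 3 * (s i - (2 * a i + a j - 2)) = 5 * a i + a j - 6 := by
      ring
    rwa [e] at h
  obtain ⟨s', gi, gj, gl, gs⟩ := exists_repr hij hil hjl hx hy hz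
  have C' := C.congr gs
  obtain ⟨t, h1, h2, h3⟩ := dvd_bdd (by omega) F1 0 1 (by omega) (by omega)
  have ht : t = 0 ∨ t = 1 := by omega
  rcases ht with rfl | rfl
  · have ha : a i = 1 := by omega
    have hb : a j = 1 := by omega
    apply Concl.congr gs
    refine ⟨2, 1, -4, ?_, ?_⟩
    · intro hd
      obtain ⟨t, h1, h2, h3⟩ := dvd_bdd (by omega) hd 0 0 (by omega) (by omega)
      have : t = 0 := by omega
      subst this
      omega
    · intro m c h0 hc
      rcases fin3_cases i j l m hij hil hjl with rfl | rfl | rfl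
      · exact Or.inl ⟨0, by rw [gi]; omega⟩
      · exact Or.inr (Or.inr ⟨i, 0, by omega, by omega, 0, by rw [gj, gi]; omega⟩)
      · by_cases h9 : c = a m - 2
        · exact Or.inr (Or.inl ⟨0, by rw [gl]; omega⟩)
        · by_cases h10 : c = a m - 1
          · exact Or.inr (Or.inr ⟨j, 0, by omega, by omega, 0, by rw [gl, gj]; omega⟩)
          · exact Or.inr (Or.inr ⟨m, c + 2, by omega, by omega, 0, by omega⟩)
  · exfalso
    have h4 := C'.JT i l l 0
    rw [gi, gl] at h4
    omega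

lemma case_12_jli (C : Cfg n k s a) {i j l : Fin 3} (hij : i ≠ j) (hil : i ≠ l) (hjl : j ≠ l)
    (S1 : n ∣ 2 * s i + s j - 1) (S2 : n ∣ 3 * s l - 1)
    (E1 : n ∣ 2 * (s j + a j) + (s l + a l) - 2) (E2 : n ∣ 2 * (s l + a l) + (s i + a i) - 2) :
    False := by
  have hsum := C.sum' hij hil hjl
  have pi := C.pos i
  have pj := C.pos j
  have pl := C.pos l
  have hn := C.hn
  have hk := C.hk
  have hev := C.hev
  have hz := third_start C S2
  have hx : n ∣ s i - (2 + a i + 2 * a j) := by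
    have h := dvd_sub E2 (dvd_mul_of_dvd_right hz 2)
    have e : 2 * (s l + a l) + (s i + a i) - 2 - 2 * (s l - -k) =
        s i - (2 + a i + 2 * a j) := by rw [← hsum]; ring
    rwa [e] at h
  have hy : n ∣ s j - (-3 - 2 * a i - 4 * a j) := by
    have h := dvd_sub S1 (dvd_mul_of_dvd_right hx 2)
    have e : 2 * s i + s j - 1 - 2 * (s i - (2 + a i + 2 * a j)) =
        s j - (-3 - 2 * a i - 4 * a j) := by ring
    rwa [e] at h
  have F1 : n ∣ 5 * a i + 7 * a j + 8 := by
    have h := dvd_sub (dvd_add (dvd_mul_of_dvd_right hy 2) hz) E1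
    have e : 2 * (s j - (-3 - 2 * a i - 4 * a j)) + (s l - -k) -
        (2 * (s j + a j) + (s l + a l) - 2) = 5 * a i + 7 * a j + 8 := by rw [← hsum]; ring
    rwa [e] at h
  obtain ⟨s', gi, gj, gl, gs⟩ := exists_repr hij hil hjl hx hy hz
  have C' := C.congr gs
  obtain ⟨t, h1, h2, h3⟩ := dvd_bdd (by omega) F1 1 2 (by omega) (by omega)
  have ht : t = 1 ∨ t = 2 := by omega
  rcases ht with rfl | rfl
  · have h4 := C'.JT j l l (-1)
    rw [gj, gl] at h4
    omega
  · have h4 := C'.JT j j j (-3)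
    rw [gj] at h4
    omega

lemma case_12_lji (C : Cfg n k s a) {i j l : Fin 3} (hij : i ≠ j) (hil : i ≠ l) (hjl : j ≠ l)
    (S1 : n ∣ 2 * s i + s j - 1) (S2 : n ∣ 3 * s l - 1)
    (E1 : n ∣ 2 * (s l + a l) + (s j + a j) - 2) (E2 : n ∣ 2 * (s j + a j) + (s i + a i) - 2) :
    False := by
  have hsum := C.sum' hij hil hjl
  have pi := C.pos i
  have pj := C.pos j
  have pl := C.pos l
  have hn := C.hn
  have hk := C.hk
  have hev := C.hev
  have hz := third_start C S2
  have hy : n ∣ s j - (2 + 2 * a i + a j) := by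
    have h := dvd_sub E1 (dvd_mul_of_dvd_right hz 2)
    have e : 2 * (s l + a l) + (s j + a j) - 2 - 2 * (s l - -k) =
        s j - (2 + 2 * a i + a j) := by rw [← hsum]; ring
    rwa [e] at h
  have hx : n ∣ s i - (-2 - 5 * a i - 4 * a j) := by
    have h := dvd_sub E2 (dvd_mul_of_dvd_right hy 2)
    have e : 2 * (s j + a j) + (s i + a i) - 2 - 2 * (s j - (2 + 2 * a i + a j)) =
        s i - (-2 - 5 * a i - 4 * a j) := by ring
    rwa [e] at h
  have F1 : n ∣ 8 * a i + 7 * a j + 3 := by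
    have h := dvd_sub (dvd_add (dvd_mul_of_dvd_right hx 2) hy) S1
    have e : 2 * (s i - (-2 - 5 * a i - 4 * a j)) + (s j - (2 + 2 * a i + a j)) -
        (2 * s i + s j - 1) = 8 * a i + 7 * a j + 3 := by ring
    rwa [e] at h
  obtain ⟨s', gi, gj, gl, gs⟩ := exists_repr hij hil hjl hx hy hz
  have C' := C.congr gs
  obtain ⟨t, h1, h2, h3⟩ := dvd_bdd (by omega) F1 1 2 (by omega) (by omega)
  have ht : t = 1 ∨ t = 2 := by omega
  rcases ht with rfl | rfl
  · have h4 := C'.JT i l l (-1)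
    rw [gi, gl] at h4
    omega
  · have h4 := C'.JT i j l (-1)
    rw [gi, gj, gl] at h4
    omega

end Pool.Agent.Helper43.FF
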